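import Mathlib

/-!
# MP_5dc1dd_co, question Q1

An irreducible monohedral multiple tiling of density `2` whose prototile is the rectangle with sides
`3` and `1`.  It is a periodic (period lattice `6 ℤ x 4 ℤ`) family of horizontal and vertical
rectangles covering every unit cell exactly twice, in which five rectangles overlap cyclically.
-/

namespace Pool.Agent.Results.MP_5dc1dd_co.RectangleDensityTwo

open Set

/-- The Euclidean plane. -/
abbrev Plane : Type := EuclideanSpace ℝ (Fin 2)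

/-- `P` is a (nondegenerate) parallelogram. -/
def IsParallelogram (P : Set Plane) : Prop :=
  ∃ a u v : Plane, LinearIndependent ℝ ![u, v] ∧
    P = {x | ∃ s ∈ Icc (0 : ℝ) 1, ∃ t ∈ Icc (0 : ℝ) 1, x = a + s • u + t • v}

/-- The countable family `t` of tiles is a multiple tiling of density `d`: every point of the plane
on the boundary of no tile lies in the interiors of exactly `d` tiles. -/
def IsMultipleTiling {ι : Type} (t : ι → Set Plane) (d : ℕ) : Prop :=
  Countable ι ∧ ∀ x : Plane, (∀ i, x ∉ frontier (t i)) → {i | x ∈ interior (t i)}.encard = d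

/-- The family `t` (a multiple tiling of density `d`) is reducible: it can be split into `k ≥ 2`
nonempty subfamilies, each of which is a multiple tiling of some density `≥ 1` and `< d`. -/
def IsReducible {ι : Type} (t : ι → Set Plane) (d : ℕ) : Prop :=
  ∃ (k : ℕ) (c : ι → Fin k), 2 ≤ k ∧ Function.Surjective c ∧
    ∀ j : Fin k, ∃ e : ℕ, 1 ≤ e ∧ e < d ∧ IsMultipleTiling (fun i : {i // c i = j} => t i) e

/-! ### The combinatorial pattern -/

/-- Which tiles are present: `true` horizontal, `false` vertical; the position is taken modulo the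
period lattice. -/
def tbl (o : Bool) (x : ZMod 6) (y : ZMod 4) : Bool :=
  if o then
    (x, y) ∈ ({(0, 0), (1, 1), (1, 3), (2, 0), (2, 2), (3, 3), (4, 0), (4, 1), (5, 2), (5, 3)} :
      Finset (ZMod 6 × ZMod 4))
  else
    (x, y) ∈ ({(0, 1), (1, 0), (2, 1), (3, 0), (4, 1), (5, 0)} : Finset (ZMod 6 × ZMod 4))

/-- The index set of the tiles: orientation and lower left corner. -/
abbrev Idx : Type := {q : Bool × ℤ × ℤ // tbl q.1 (q.2.1 : ZMod 6) (q.2.2 : ZMod 4) = true}

/-- The tile with orientation `o` and lower left corner `(m, n)` covers the unit cell `(a, b)`. -/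
def Covers (q : Bool × ℤ × ℤ) (a b : ℤ) : Prop :=
  if q.1 then (q.2.1 ≤ a ∧ a ≤ q.2.1 + 2) ∧ q.2.2 = b
  else q.2.1 = a ∧ (q.2.2 ≤ b ∧ b ≤ q.2.2 + 2)

/-- The six possible tiles covering the cell `(a, b)`. -/
def cand (a b : ℤ) (j : Fin 6) : Bool × ℤ × ℤ :=
  ![(true, a, b), (true, a - 1, b), (true, a - 2, b), (false, a, b), (false, a, b - 1),
    (false, a, b - 2)] j

theorem cand_injective (a b : ℤ) : Function.Injective (cand a b) := by
  intro i j h
  fin_cases i <;> fin_cases j <;> simp [cand] at h ⊢ <;> omega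

theorem covers_iff (q : Bool × ℤ × ℤ) (a b : ℤ) : Covers q a b ↔ ∃ j, cand a b j = q := by
  obtain ⟨o, m, n⟩ := q
  cases o
  · simp only [Covers, Bool.false_eq_true, if_false]
    constructor
    · rintro ⟨rfl, h1, h2⟩
      have h3 : b = n ∨ b = n + 1 ∨ b = n + 2 := by omega
      rcases h3 with rfl | rfl | rfl
      · exact ⟨3, rfl⟩
      · exact ⟨4, by simp [cand]⟩
      · exact ⟨5, by simp [cand]⟩
    · rintro ⟨j, hj⟩
      fin_cases j <;> simp [cand] at hj <;> omega
  · simp only [Covers, if_true]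
    constructor
    · rintro ⟨⟨h1, h2⟩, rfl⟩
      have h3 : a = m ∨ a = m + 1 ∨ a = m + 2 := by omega
      rcases h3 with rfl | rfl | rfl
      · exact ⟨0, rfl⟩
      · exact ⟨1, by simp [cand]⟩
      · exact ⟨2, by simp [cand]⟩
    · rintro ⟨j, hj⟩
      fin_cases j <;> simp [cand] at hj <;> omega

/-- The six possible tiles modulo the period lattice. -/
def candMod (x : ZMod 6) (y : ZMod 4) (j : Fin 6) : Bool :=
  ![tbl true x y, tbl true (x - 1) y, tbl true (x - 2) y, tbl false x y, tbl false x (y - 1),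
    tbl false x (y - 2)] j

theorem candMod_two : ∀ (x : ZMod 6) (y : ZMod 4), ∃ j₁ j₂ : Fin 6, j₁ ≠ j₂ ∧
    ∀ j, candMod x y j = true ↔ (j = j₁ ∨ j = j₂) := by
  decide +kernel

theorem tbl_cand (a b : ℤ) (j : Fin 6) :
    tbl (cand a b j).1 ((cand a b j).2.1 : ZMod 6) ((cand a b j).2.2 : ZMod 4) =
      candMod a b j := by
  fin_cases j <;> simp [cand, candMod]

/-- Every cell is covered exactly twice. -/
theorem encard_covers (a b : ℤ) : {q : Idx | Covers q.1 a b}.encard = 2 := by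
  obtain ⟨j₁, j₂, hne, hj⟩ := candMod_two a b
  have p1 : tbl (cand a b j₁).1 ((cand a b j₁).2.1 : ZMod 6) ((cand a b j₁).2.2 : ZMod 4) =
      true := by
    rw [tbl_cand, hj]
    exact Or.inl rfl
  have p2 : tbl (cand a b j₂).1 ((cand a b j₂).2.1 : ZMod 6) ((cand a b j₂).2.2 : ZMod 4) =
      true := by
    rw [tbl_cand, hj]
    exact Or.inr rfl
  have hset : {q : Idx | Covers q.1 a b} = {⟨cand a b j₁, p1⟩, ⟨cand a b j₂, p2⟩} := by
    ext q
    rw [mem_ofPred_eq, covers_iff, mem_insert_iff, mem_singleton_iff, Subtype.ext_iff,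
      Subtype.ext_iff]
    constructor
    · rintro ⟨j, hq⟩
      have h1 := q.2
      rw [← hq, tbl_cand, hj] at h1
      rcases h1 with h1 | h1
      · left
        rw [← hq, h1]
      · right
        rw [← hq, h1]
    · rintro (h | h)
      · exact ⟨j₁, h.symm⟩
      · exact ⟨j₂, h.symm⟩
  rw [hset, encard_pair]
  intro h
  exact hne (cand_injective a b (congrArg Subtype.val h))

/-! ### Geometry -/

/-- The prototile. -/
def rect : Set Plane := {p | (0 ≤ p 0 ∧ p 0 ≤ 3) ∧ (0 ≤ p 1 ∧ p 1 ≤ 1)}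

/-- The isometry placing a tile. -/
noncomputable def phi (q : Bool × ℤ × ℤ) (p : Plane) : Plane :=
  if q.1 then !₂[(q.2.1 : ℝ) + p 0, (q.2.2 : ℝ) + p 1]
  else !₂[(q.2.1 : ℝ) + p 1, (q.2.2 : ℝ) + p 0]

/-- The placed tile. -/
def tile (q : Bool × ℤ × ℤ) : Set Plane :=
  if q.1 then {p | ((q.2.1 : ℝ) ≤ p 0 ∧ p 0 ≤ q.2.1 + 3) ∧ ((q.2.2 : ℝ) ≤ p 1 ∧ p 1 ≤ q.2.2 + 1)}
  else {p | ((q.2.1 : ℝ) ≤ p 0 ∧ p 0 ≤ q.2.1 + 1) ∧ ((q.2.2 : ℝ) ≤ p 1 ∧ p 1 ≤ q.2.2 + 3)}

theorem vec_eq (a b : ℝ) (q : Plane) : !₂[a, b] = q ↔ a = q 0 ∧ b = q 1 := by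
  constructor
  · rintro rfl
    exact ⟨rfl, rfl⟩
  · rintro ⟨rfl, rfl⟩
    ext i
    fin_cases i <;> rfl

theorem phi_rect (q : Bool × ℤ × ℤ) : phi q '' rect = tile q := by
  obtain ⟨o, m, n⟩ := q
  ext x
  rw [mem_image]
  cases o
  · simp only [phi, tile, Bool.false_eq_true, if_false]
    constructor
    · rintro ⟨p, ⟨⟨h1, h2⟩, h3, h4⟩, rfl⟩
      refine ⟨⟨?_, ?_⟩, ?_, ?_⟩ <;>
        simp only [Matrix.cons_val_zero, Matrix.cons_val_one, Matrix.cons_val_fin_one] <;> linarith
    · rintro ⟨⟨h1, h2⟩, h3, h4⟩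
      refine ⟨!₂[x 1 - n, x 0 - m], ⟨⟨?_, ?_⟩, ?_, ?_⟩, ?_⟩
      · simp only [Matrix.cons_val_zero]; linarith
      · simp only [Matrix.cons_val_zero]; linarith
      · simp only [Matrix.cons_val_one, Matrix.cons_val_fin_one]; linarith
      · simp only [Matrix.cons_val_one, Matrix.cons_val_fin_one]; linarith
      · rw [vec_eq]
        simp
  · simp only [phi, tile, if_true]
    constructor
    · rintro ⟨p, ⟨⟨h1, h2⟩, h3, h4⟩, rfl⟩
      refine ⟨⟨?_, ?_⟩, ?_, ?_⟩ <;>
        simp only [Matrix.cons_val_zero, Matrix.cons_val_one, Matrix.cons_val_fin_one] <;> linarith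
    · rintro ⟨⟨h1, h2⟩, h3, h4⟩
      refine ⟨!₂[x 0 - m, x 1 - n], ⟨⟨?_, ?_⟩, ?_, ?_⟩, ?_⟩
      · simp only [Matrix.cons_val_zero]; linarith
      · simp only [Matrix.cons_val_zero]; linarith
      · simp only [Matrix.cons_val_one, Matrix.cons_val_fin_one]; linarith
      · simp only [Matrix.cons_val_one, Matrix.cons_val_fin_one]; linarith
      · rw [vec_eq]
        simp

theorem isometry_phi (q : Bool × ℤ × ℤ) : Isometry (phi q) := by
  refine Isometry.of_dist_eq fun x y => ?_
  rw [EuclideanSpace.dist_eq, EuclideanSpace.dist_eq]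
  congr 1
  simp only [Fin.sum_univ_two, Real.dist_eq, sq_abs]
  unfold phi
  split_ifs
  · simp only [Matrix.cons_val_zero, Matrix.cons_val_one, Matrix.cons_val_fin_one]
    ring
  · simp only [Matrix.cons_val_zero, Matrix.cons_val_one, Matrix.cons_val_fin_one]
    ring

theorem isClosed_box (a b c d : ℝ) :
    IsClosed {p : Plane | (a ≤ p 0 ∧ p 0 ≤ b) ∧ (c ≤ p 1 ∧ p 1 ≤ d)} := by
  have h0 : Continuous fun p : Plane => p 0 := by fun_prop
  have h1 : Continuous fun p : Plane => p 1 := by fun_prop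
  exact ((isClosed_le continuous_const h0).inter (isClosed_le h0 continuous_const)).inter
    ((isClosed_le continuous_const h1).inter (isClosed_le h1 continuous_const))

theorem interior_box (a b c d : ℝ) :
    interior {p : Plane | (a ≤ p 0 ∧ p 0 ≤ b) ∧ (c ≤ p 1 ∧ p 1 ≤ d)} =
      {p : Plane | (a < p 0 ∧ p 0 < b) ∧ (c < p 1 ∧ p 1 < d)} := by
  have h0 : Continuous fun p : Plane => p 0 := by fun_prop
  have h1 : Continuous fun p : Plane => p 1 := by fun_prop
  apply Subset.antisymm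
  · intro p hp
    rw [mem_interior_iff_mem_nhds, Metric.mem_nhds_iff] at hp
    obtain ⟨ε, hε, hball⟩ := hp
    have key : ∀ (i : Fin 2) (s : ℝ), |s| < ε → p + EuclideanSpace.single i s ∈
        {p : Plane | (a ≤ p 0 ∧ p 0 ≤ b) ∧ (c ≤ p 1 ∧ p 1 ≤ d)} := by
      intro i s hs
      apply hball
      rw [Metric.mem_ball, dist_eq_norm, add_sub_cancel_left, PiLp.norm_single, Real.norm_eq_abs]
      exact hs
    have e1 : |ε / 2| < ε := by rw [abs_of_pos (by linarith)]; linarith
    have e2 : |-(ε / 2)| < ε := by rw [abs_neg]; exact e1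
    obtain ⟨⟨-, k1⟩, -⟩ := key 0 (ε / 2) e1
    obtain ⟨⟨k2, -⟩, -⟩ := key 0 (-(ε / 2)) e2
    obtain ⟨-, -, k3⟩ := key 1 (ε / 2) e1
    obtain ⟨-, k4, -⟩ := key 1 (-(ε / 2)) e2
    simp only [PiLp.add_apply, PiLp.single_apply, if_true] at k1 k2 k3 k4
    refine ⟨⟨?_, ?_⟩, ?_, ?_⟩ <;> linarith
  · apply interior_maximal
    · rintro p ⟨⟨k1, k2⟩, k3, k4⟩
      exact ⟨⟨k1.le, k2.le⟩, k3.le, k4.le⟩
    · exact ((isOpen_lt continuous_const h0).inter (isOpen_lt h0 continuous_const)).inter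
        ((isOpen_lt continuous_const h1).inter (isOpen_lt h1 continuous_const))

theorem isClosed_tile (q : Bool × ℤ × ℤ) : IsClosed (tile q) := by
  unfold tile
  split_ifs
  · exact isClosed_box _ _ _ _
  · exact isClosed_box _ _ _ _

/-- A point not on the boundary of the tile lies in its interior iff its cell is covered. -/
theorem mem_interior_iff (q : Bool × ℤ × ℤ) (x : Plane) (hx : x ∉ frontier (tile q)) :
    x ∈ interior (tile q) ↔ Covers q ⌊x 0⌋ ⌊x 1⌋ := by
  obtain ⟨o, m, n⟩ := q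
  constructor
  · cases o
    · simp only [tile, Covers, Bool.false_eq_true, if_false]
      rw [interior_box]
      rintro ⟨⟨h1, h2⟩, h3, h4⟩
      refine ⟨?_, ?_, ?_⟩
      · symm
        rw [Int.floor_eq_iff]
        exact ⟨h1.le, h2⟩
      · rw [Int.le_floor]
        exact h3.le
      · have : ⌊x 1⌋ < n + 3 := by
          rw [Int.floor_lt]
          push_cast
          exact h4
        omega
    · simp only [tile, Covers, if_true]
      rw [interior_box]
      rintro ⟨⟨h1, h2⟩, h3, h4⟩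
      refine ⟨⟨?_, ?_⟩, ?_⟩
      · rw [Int.le_floor]
        exact h1.le
      · have : ⌊x 0⌋ < m + 3 := by
          rw [Int.floor_lt]
          push_cast
          exact h2
        omega
      · symm
        rw [Int.floor_eq_iff]
        exact ⟨h3.le, h4⟩
  · intro h
    have hmem : x ∈ tile (o, m, n) := by
      have f0 := Int.floor_le (x 0)
      have f1 := Int.lt_floor_add_one (x 0)
      have f2 := Int.floor_le (x 1)
      have f3 := Int.lt_floor_add_one (x 1)
      cases o
      · simp only [tile, Covers, Bool.false_eq_true, if_false] at h ⊢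
        obtain ⟨h1, h2, h3⟩ := h
        have g1 : (m : ℝ) = ⌊x 0⌋ := by exact_mod_cast h1
        have g2 : (n : ℝ) ≤ ⌊x 1⌋ := by exact_mod_cast h2
        have g3 : (⌊x 1⌋ : ℝ) ≤ n + 2 := by exact_mod_cast h3
        refine ⟨⟨?_, ?_⟩, ?_, ?_⟩ <;> linarith
      · simp only [tile, Covers, if_true] at h ⊢
        obtain ⟨⟨h1, h2⟩, h3⟩ := h
        have g1 : (n : ℝ) = ⌊x 1⌋ := by exact_mod_cast h3
        have g2 : (m : ℝ) ≤ ⌊x 0⌋ := by exact_mod_cast h1
        have g3 : (⌊x 0⌋ : ℝ) ≤ m + 2 := by exact_mod_cast h2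
        refine ⟨⟨?_, ?_⟩, ?_, ?_⟩ <;> linarith
    by_contra hni
    exact hx (by rw [(isClosed_tile _).frontier_eq]; exact ⟨hmem, hni⟩)

theorem isMultipleTiling : IsMultipleTiling (fun i : Idx => phi i.1 '' rect) 2 := by
  refine ⟨inferInstance, fun x hx => ?_⟩
  simp only [phi_rect] at hx ⊢
  rw [Nat.cast_ofNat, ← encard_covers ⌊x 0⌋ ⌊x 1⌋]
  congr 1
  ext i
  exact mem_interior_iff i.1 x (hx i)

/-! ### Irreducibility -/

/-- The centre of a cell. -/
noncomputable def ctr (a b : ℤ) : Plane := !₂[(a : ℝ) + 1 / 2, (b : ℝ) + 1 / 2]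

theorem floor_ctr (a b : ℤ) : ⌊ctr a b 0⌋ = a ∧ ⌊ctr a b 1⌋ = b := by
  constructor
  · rw [Int.floor_eq_iff]
    constructor
    · change (a : ℝ) ≤ (a : ℝ) + 1 / 2
      linarith
    · change (a : ℝ) + 1 / 2 < (a : ℝ) + 1
      linarith
  · rw [Int.floor_eq_iff]
    constructor
    · change (b : ℝ) ≤ (b : ℝ) + 1 / 2
      linarith
    · change (b : ℝ) + 1 / 2 < (b : ℝ) + 1
      linarith

theorem ctr_not_frontier (q : Bool × ℤ × ℤ) (a b : ℤ) : ctr a b ∉ frontier (tile q) := by
  obtain ⟨o, m, n⟩ := q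
  rw [(isClosed_tile _).frontier_eq]
  have hc0 : ctr a b 0 = (a : ℝ) + 1 / 2 := rfl
  have hc1 : ctr a b 1 = (b : ℝ) + 1 / 2 := rfl
  have half : ∀ (k l : ℤ), (k : ℝ) ≤ (l : ℝ) + 1 / 2 → (k : ℝ) < (l : ℝ) + 1 / 2 := by
    intro k l h
    have h1 : (k : ℝ) < (l : ℝ) + 1 := by linarith
    have h2 : k < l + 1 := by exact_mod_cast h1
    have h3 : k ≤ l := by omega
    have h4 : (k : ℝ) ≤ l := by exact_mod_cast h3
    linarith
  have half' : ∀ (k l : ℤ), (l : ℝ) + 1 / 2 ≤ (k : ℝ) → (l : ℝ) + 1 / 2 < (k : ℝ) := by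
    intro k l h
    have h1 : (l : ℝ) < (k : ℝ) := by linarith
    have h2 : l < k := by exact_mod_cast h1
    have h3 : l + 1 ≤ k := by omega
    have h4 : (l : ℝ) + 1 ≤ k := by exact_mod_cast h3
    linarith
  rintro ⟨h1, h2⟩
  apply h2
  cases o
  · simp only [tile, Bool.false_eq_true, if_false] at h1 ⊢
    rw [interior_box]
    obtain ⟨⟨k1, k2⟩, k3, k4⟩ := h1
    rw [hc0] at k1 k2
    rw [hc1] at k3 k4
    refine ⟨⟨?_, ?_⟩, ?_, ?_⟩
    · rw [hc0]; exact half _ _ k1
    · rw [hc0]; exact (half' (m + 1) a (by push_cast; exact k2)).trans_eq (by push_cast; ring)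
    · rw [hc1]; exact half _ _ k3
    · rw [hc1]; exact (half' (n + 3) b (by push_cast; exact k4)).trans_eq (by push_cast; ring)
  · simp only [tile, if_true] at h1 ⊢
    rw [interior_box]
    obtain ⟨⟨k1, k2⟩, k3, k4⟩ := h1
    rw [hc0] at k1 k2
    rw [hc1] at k3 k4
    refine ⟨⟨?_, ?_⟩, ?_, ?_⟩
    · rw [hc0]; exact half _ _ k1
    · rw [hc0]; exact (half' (m + 3) a (by push_cast; exact k2)).trans_eq (by push_cast; ring)
    · rw [hc1]; exact half _ _ k3
    · rw [hc1]; exact (half' (n + 1) b (by push_cast; exact k4)).trans_eq (by push_cast; ring)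

/-- In a splitting, two different tiles covering a common cell get different colours, and no other
colour exists. -/
theorem two_colours {k : ℕ} {c : Idx → Fin k}
    (hc : ∀ j : Fin k, ∃ e : ℕ, 1 ≤ e ∧ e < 2 ∧
      IsMultipleTiling (fun i : {i // c i = j} => phi i.1.1 '' rect) e)
    (A B : Idx) (hAB : A ≠ B) (a b : ℤ) (hA : Covers A.1 a b) (hB : Covers B.1 a b) :
    c A ≠ c B ∧ ∀ j, j = c A ∨ j = c B := by
  have hone : ∀ j : Fin k, {i : {i // c i = j} | Covers i.1.1 a b}.encard = 1 := by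
    intro j
    obtain ⟨e, he1, he2, -, he⟩ := hc j
    have he' : e = 1 := by omega
    subst he'
    have h1 := he (ctr a b) (fun i => by
      simp only [phi_rect]
      exact ctr_not_frontier _ a b)
    rw [← Nat.cast_one, ← h1]
    congr 1
    ext i
    simp only [mem_ofPred_eq, phi_rect]
    rw [mem_interior_iff _ _ (ctr_not_frontier _ a b), (floor_ctr a b).1, (floor_ctr a b).2]
  have hpair : {q : Idx | Covers q.1 a b} = {A, B} := by
    symm
    apply (toFinite {A, B}).eq_of_subset_of_encard_le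
    · rintro q (rfl | rfl)
      · exact hA
      · exact hB
    · rw [encard_covers, encard_pair hAB]
  constructor
  · intro heq
    have h1 := hone (c B)
    rw [encard_eq_one] at h1
    obtain ⟨z, hz⟩ := h1
    have h2 : (⟨A, heq⟩ : {i // c i = c B}) ∈ {i : {i // c i = c B} | Covers i.1.1 a b} := hA
    have h3 : (⟨B, rfl⟩ : {i // c i = c B}) ∈ {i : {i // c i = c B} | Covers i.1.1 a b} := hB
    rw [hz, mem_singleton_iff] at h2 h3
    exact hAB (congrArg Subtype.val (h2.trans h3.symm))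
  · intro j
    have h1 := hone j
    rw [encard_eq_one] at h1
    obtain ⟨z, hz⟩ := h1
    have h2 : z ∈ {i : {i // c i = j} | Covers i.1.1 a b} := by
      rw [hz]
      exact mem_singleton _
    have h3 : z.1 ∈ {q : Idx | Covers q.1 a b} := h2
    rw [hpair] at h3
    rcases h3 with h3 | h3
    · left
      rw [← z.2, h3]
    · right
      rw [← z.2, mem_singleton_iff.mp h3]

/-- Five tiles overlapping cyclically. -/
def tA : Idx := ⟨(true, 0, 0), by decide⟩
/-- Second tile. -/
def tB : Idx := ⟨(false, 1, 0), by decide⟩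
/-- Third tile. -/
def tC : Idx := ⟨(true, 1, 1), by decide⟩
/-- Fourth tile. -/
def tD : Idx := ⟨(false, 3, 0), by decide⟩
/-- Fifth tile. -/
def tE : Idx := ⟨(true, 2, 0), by decide⟩

theorem irreducible : ¬ IsReducible (fun i : Idx => phi i.1 '' rect) 2 := by
  rintro ⟨k, c, -, -, hc⟩
  have h1 := two_colours hc tA tB (by decide) 1 0 (by simp [Covers, tA]) (by simp [Covers, tB])
  have h2 := two_colours hc tB tC (by decide) 1 1 (by simp [Covers, tB]) (by simp [Covers, tC])
  have h3 := two_colours hc tC tD (by decide) 3 1 (by simp [Covers, tC]) (by simp [Covers, tD])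
  have h4 := two_colours hc tD tE (by decide) 3 0 (by simp [Covers, tD]) (by simp [Covers, tE])
  have h5 := two_colours hc tE tA (by decide) 2 0 (by simp [Covers, tE]) (by simp [Covers, tA])
  have e1 : c tC = c tA := by
    rcases h1.2 (c tC) with h | h
    · exact h
    · exact absurd h.symm h2.1
  have e2 : c tD = c tB := by
    rcases h2.2 (c tD) with h | h
    · exact h
    · exact absurd h.symm h3.1
  have e3 : c tE = c tC := by
    rcases h3.2 (c tE) with h | h
    · exact h
    · exact absurd h.symm h4.1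
  exact h5.1 (e3.trans e1)

theorem isParallelogram_rect : IsParallelogram rect := by
  refine ⟨0, !₂[3, 0], !₂[0, 1], ?_, ?_⟩
  · rw [LinearIndependent.pair_iff]
    intro s t h
    have h0 := congrArg (fun p : Plane => p 0) h
    have h1 := congrArg (fun p : Plane => p 1) h
    simp at h0 h1
    exact ⟨h0, h1⟩
  · ext x
    constructor
    · rintro ⟨⟨h1, h2⟩, h3, h4⟩
      refine ⟨x 0 / 3, ⟨by linarith, by linarith⟩, x 1, ⟨h3, h4⟩, ?_⟩
      ext i
      fin_cases i
      · simp
      · simp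
    · rintro ⟨s, ⟨hs0, hs1⟩, t, ⟨ht0, ht1⟩, rfl⟩
      refine ⟨⟨?_, ?_⟩, ?_, ?_⟩ <;> simp <;> linarith

/-- **Positive answer to Q1**: there are a parallelogram `P`, an integer `d ≥ 2` and an irreducible
monohedral multiple tiling of the plane of density `d` with prototile `P`. -/
theorem result : ∃ (P : Set Plane) (d : ℕ) (ι : Type) (φ : ι → Plane → Plane),
    IsParallelogram P ∧ 2 ≤ d ∧ (∀ i, Isometry (φ i)) ∧
      IsMultipleTiling (fun i => φ i '' P) d ∧ ¬ IsReducible (fun i => φ i '' P) d :=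
  ⟨rect, 2, Idx, fun i => phi i.1, isParallelogram_rect, le_rfl, fun i => isometry_phi i.1,
    isMultipleTiling, irreducible⟩

end Pool.Agent.Results.MP_5dc1dd_co.RectangleDensityTwo
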